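import Pool.Agent.Y192.KC.Stm2

/-!
# Entire curves in closed subsets of tori (job KG7 of helper192)
-/

set_option autoImplicit false

namespace Pool.Agent.Y220.KG

open Filter Topology Metric Set Pool.Agent.Y192.OG Pool.Agent.Y192.KC Pool.Agent.W603.BP

/-- the zeros of a nonzero entire function -/
theorem zeros_countable {f : ℂ → ℂ} (hf : Differentiable ℂ f) (hne : ∃ z, f z ≠ 0) :
    {z | f z = 0}.Countable := by
  have han : AnalyticOnNhd ℂ f univ := fun z _ => hf.analyticAt z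
  refine (HereditarilyLindelofSpace.isLindelof _).countable_of_isDiscrete ?_
  rw [isDiscrete_iff_nhdsNE]
  intro z _
  rw [← disjoint_iff, Filter.disjoint_principal_right]
  rcases (hf.analyticAt z).eventually_eq_zero_or_eventually_ne_zero with h | h
  · exfalso
    obtain ⟨w, hw⟩ := hne
    exact hw (han.eqOn_zero_of_preconnected_of_eventuallyEq_zero isPreconnected_univ
      (mem_univ z) h (mem_univ w))
  · exact h

theorem diff_eval {n : ℕ} (P : MvPolynomial (Fin n) ℂ) {U : Fin n → ℂ → ℂ}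
    (hU : ∀ i, Differentiable ℂ (U i)) :
    Differentiable ℂ fun z => MvPolynomial.eval (fun i => U i z) P := by
  induction P using MvPolynomial.induction_on with
  | C a => simp
  | add p q hp hq =>
    have h1 : (fun z => MvPolynomial.eval (fun i => U i z) (p + q)) =
        fun z => MvPolynomial.eval (fun i => U i z) p + MvPolynomial.eval (fun i => U i z) q := by
      funext z
      rw [map_add]
    rw [h1]
    exact hp.add hq
  | mul_X p i hp =>
    have h1 : (fun z => MvPolynomial.eval (fun i => U i z) (p * MvPolynomial.X i)) =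
        fun z => MvPolynomial.eval (fun i => U i z) p * U i z := by
      funext z
      rw [map_mul, MvPolynomial.eval_X]
    rw [h1]
    exact hp.mul (hU i)

section lev

variable {n : ℕ}

theorem lev_ep (g : Lau n) (u : Fin n → ℂˣ) : lev g (fun i => (u i : ℂ)) = ep u g := by
  induction g using AddMonoidAlgebra.induction_linear with
  | zero => rw [lev_zero, map_zero]
  | add f g hf hg => rw [lev_add, map_add, hf, hg]
  | single m a =>
    rw [lev_single, ep_single, smul_eq_mul]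
    congr 1
    unfold xm
    rw [Units.coe_prod]
    refine Finset.prod_congr rfl fun i _ => ?_
    rw [Units.val_zpow_eq_zpow_val]

theorem lev_mul (g h : Lau n) {x : Fin n → ℂ} (hx : ∀ i, x i ≠ 0) :
    lev (g * h) x = lev g x * lev h x := by
  have h1 : x = fun i => ((Units.mk0 (x i) (hx i) : ℂˣ) : ℂ) := rfl
  rw [h1, lev_ep, lev_ep, lev_ep, map_mul]

theorem lev_one {x : Fin n → ℂ} (hx : ∀ i, x i ≠ 0) : lev (1 : Lau n) x = 1 := by
  have h1 : x = fun i => ((Units.mk0 (x i) (hx i) : ℂˣ) : ℂ) := rfl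
  rw [h1, lev_ep, map_one]

theorem lev_pow (g : Lau n) (k : ℕ) {x : Fin n → ℂ} (hx : ∀ i, x i ≠ 0) :
    lev (g ^ k) x = lev g x ^ k := by
  have h1 : x = fun i => ((Units.mk0 (x i) (hx i) : ℂˣ) : ℂ) := rfl
  rw [h1, lev_ep, lev_ep, map_pow]

theorem lev_sum {ι : Type} (s : Finset ι) (g : ι → Lau n) {x : Fin n → ℂ} (hx : ∀ i, x i ≠ 0) :
    lev (∑ i ∈ s, g i) x = ∑ i ∈ s, lev (g i) x := by
  have h1 : x = fun i => ((Units.mk0 (x i) (hx i) : ℂˣ) : ℂ) := rfl
  rw [h1, lev_ep, map_sum]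
  exact Finset.sum_congr rfl fun i _ => (lev_ep _ _).symm

theorem prod_wt (l m : Fin n → ℤ) {s : ℂ} (hs : s ≠ 0) (x : Fin n → ℂ) :
    ∏ i, (s ^ l i * x i) ^ m i = s ^ (∑ i, l i * m i) * ∏ i, x i ^ m i := by
  rw [Pool.Agent.Y246.OG.zpow_sum _ hs, ← Finset.prod_mul_distrib]
  refine Finset.prod_congr rfl fun i _ => ?_
  rw [mul_zpow, ← zpow_mul]

theorem lev_wt (l : Fin n → ℤ) {s : ℂ} (hs : s ≠ 0) (x : Fin n → ℂ) (g : Lau n) (k : ℤ)
    (hg : ∀ m ∈ g.coeff.support, ∑ i, l i * m i = k) :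
    lev g (fun i => s ^ l i * x i) = s ^ k * lev g x := by
  unfold lev
  rw [Finsupp.sum, Finsupp.sum, Finset.mul_sum]
  refine Finset.sum_congr rfl fun m hm => ?_
  rw [prod_wt l m hs, hg m hm]
  ring

/-- the vanishing on an orbit of a one-parameter group -/
theorem lev_orbit {Γ : Submodule ℤ (Fin n → ℤ)} {l : Fin n → ℤ}
    (hl : ∀ m ∈ Γ, ∑ i, l i * m i = 0) {x : Fin n → ℂ} (hx : ∀ i, x i ≠ 0) (g : Lau n)
    (hg : ∀ q, lev (comp Γ q g) x = 0) {s : ℂ} (hs : s ≠ 0) :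
    lev g (fun i => s ^ l i * x i) = 0 := by
  classical
  have hy : ∀ i, s ^ l i * x i ≠ 0 := fun i => mul_ne_zero (zpow_ne_zero _ hs) (hx i)
  rw [← sum_comp Γ g, lev_sum _ _ hy]
  refine Finset.sum_eq_zero fun q _ => ?_
  obtain ⟨t, rfl⟩ := Γ.mkQ_surjective q
  rw [lev_wt l hs x _ (∑ i, l i * t i), hg, mul_zero]
  intro m hm
  have h1 := (comp_supp Γ _ g m hm).1
  have h2 : m - t ∈ Γ := by
    rw [← Submodule.Quotient.mk_eq_zero Γ]
    change Γ.mkQ (m - t) = 0
    rw [map_sub, h1, sub_self]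
  have h3 := hl _ h2
  simp only [Pi.sub_apply, mul_sub, Finset.sum_sub_distrib] at h3
  linarith

/-- the orbit relation for one of the hypersurfaces -/
theorem orbit_rel {Γ : Submodule ℤ (Fin n → ℤ)} {l : Fin n → ℤ}
    (hl : ∀ m ∈ Γ, ∑ i, l i * m i = 0) {x : Fin n → ℂ} (hx : ∀ i, x i ≠ 0)
    {D F A S : Lau n} {a : Fin n → ℤ} {e : ℕ} (hD : ∀ m ∈ D.coeff.support, m ∈ Γ)
    (hA : ∀ m ∈ A.coeff.support, m ∈ Γ) (hD0 : lev D x ≠ 0) (hA0 : lev A x ≠ 0)
    (hS0 : lev S x ≠ 0)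
    (hrel : ∀ s : ℂ, s ≠ 0 → lev (D * F) (fun i => s ^ l i * x i) =
      lev (A * AddMonoidAlgebra.single a 1 * S ^ e) (fun i => s ^ l i * x i)) :
    ∃ (k : ℤ) (S : Lau n), lev S x ≠ 0 ∧ lev F x ≠ 0 ∧ ∀ s : ℂ, s ≠ 0 →
        lev F (fun i => s ^ l i * x i) * lev S x ^ e
          = s ^ k * lev F x * lev S (fun i => s ^ l i * x i) ^ e := by
  have hp : ∏ i, x i ^ a i ≠ 0 := Finset.prod_ne_zero_iff.2 fun i _ => zpow_ne_zero _ (hx i)
  have key : ∀ s : ℂ, s ≠ 0 → lev D x * lev F (fun i => s ^ l i * x i) =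
      lev A x * (s ^ (∑ i, l i * a i) * ∏ i, x i ^ a i) * lev S (fun i => s ^ l i * x i) ^ e := by
    intro s hs
    have hy : ∀ i, s ^ l i * x i ≠ 0 := fun i => mul_ne_zero (zpow_ne_zero _ hs) (hx i)
    have h1 := hrel s hs
    rw [lev_mul _ _ hy, lev_mul _ _ hy, lev_mul _ _ hy, lev_pow _ _ hy, lev_single, one_mul,
      prod_wt l a hs, lev_wt l hs x D 0 fun m hm => hl m (hD m hm),
      lev_wt l hs x A 0 fun m hm => hl m (hA m hm), zpow_zero, one_mul, one_mul] at h1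
    exact h1
  have h1 := key 1 one_ne_zero
  have hx1 : (fun i => (1 : ℂ) ^ l i * x i) = x := by
    funext i
    rw [one_zpow, one_mul]
  rw [hx1, one_zpow, one_mul] at h1
  have hF0 : lev F x ≠ 0 := by
    intro h0
    rw [h0, mul_zero] at h1
    exact mul_ne_zero (mul_ne_zero hA0 hp) (pow_ne_zero _ hS0) h1.symm
  refine ⟨∑ i, l i * a i, S, hS0, hF0, fun s hs => ?_⟩
  have h2 := key s hs
  apply mul_left_cancel₀ hD0
  calc lev D x * (lev F (fun i => s ^ l i * x i) * lev S x ^ e)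
      = (lev D x * lev F (fun i => s ^ l i * x i)) * lev S x ^ e := by ring
    _ = (lev A x * (s ^ (∑ i, l i * a i) * ∏ i, x i ^ a i) *
          lev S (fun i => s ^ l i * x i) ^ e) * lev S x ^ e := by rw [h2]
    _ = s ^ (∑ i, l i * a i) * (lev A x * (∏ i, x i ^ a i) * lev S x ^ e) *
          lev S (fun i => s ^ l i * x i) ^ e := by ring
    _ = s ^ (∑ i, l i * a i) * (lev D x * lev F x) * lev S (fun i => s ^ l i * x i) ^ e := by
        rw [h1]
    _ = lev D x * (s ^ (∑ i, l i * a i) * lev F x * lev S (fun i => s ^ l i * x i) ^ e) := by ring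

instance noeth : IsNoetherianRing (Lau n) := by
  have : Algebra.FiniteType ℂ (Lau n) := inferInstance
  exact Algebra.FiniteType.isNoetherianRing ℂ (Lau n)

end lev

section per

/-- the logarithms of a number -/
theorem logs {w : ℂ} (hw : w ≠ 0) : ∃ z : ℕ → ℂ, (∀ k, Complex.exp (z k) = w) ∧
    Tendsto (fun k => ‖z k‖) atTop atTop := by
  refine ⟨fun k => Complex.log w + k * (2 * Real.pi * Complex.I), fun k => ?_, ?_⟩
  · rw [Complex.exp_add, Complex.exp_log hw, Complex.exp_nat_mul_two_pi_mul_I, mul_one]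
  · have h1 : ∀ k : ℕ, (k : ℝ) * (2 * Real.pi) - ‖Complex.log w‖ ≤
        ‖Complex.log w + k * (2 * Real.pi * Complex.I)‖ := by
      intro k
      have h2 : ‖(k : ℂ) * (2 * Real.pi * Complex.I)‖ = k * (2 * Real.pi) := by
        rw [norm_mul, norm_mul, norm_mul, Complex.norm_I, Complex.norm_natCast, Complex.norm_real,
          Real.norm_of_nonneg Real.pi_pos.le]
        simp
      rw [← h2, add_comm]
      have := norm_sub_norm_le ((k : ℂ) * (2 * Real.pi * Complex.I)) (-Complex.log w)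
      rw [norm_neg, sub_neg_eq_add] at this
      exact this
    refine tendsto_atTop_mono h1 ?_
    refine tendsto_atTop_add_const_right _ _ ?_
    exact tendsto_natCast_atTop_atTop.atTop_mul_const (by positivity)

theorem exists_log {w : ℂ} (hw : w ≠ 0) (R : ℝ) : ∃ z : ℂ, R < ‖z‖ ∧ Complex.exp z = w := by
  obtain ⟨z, h1, h2⟩ := logs hw
  obtain ⟨k, hk⟩ := (h2.eventually_gt_atTop R).exists
  exact ⟨z k, hk, h1 k⟩

theorem const_of_per {S : ℂ → ℂ} (hS : MeromorphicAt (fun w => S w⁻¹) 0) :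
    ∃ L : ℂ, ∀ w φ : ℂ, w ≠ 0 → (∃ R0 : ℝ, ∀ z, R0 < ‖z‖ → Complex.exp z = w → S z = φ) →
      φ = L := by
  have key : ∀ w φ : ℂ, w ≠ 0 → (∃ R0 : ℝ, ∀ z, R0 < ‖z‖ → Complex.exp z = w → S z = φ) →
      ∃ u : ℕ → ℂ, Tendsto u atTop (𝓝[≠] 0) ∧ ∀ᶠ k in atTop, S (u k)⁻¹ = φ := by
    rintro w φ hw ⟨R0, hR0⟩
    obtain ⟨z, h1, h2⟩ := logs hw
    refine ⟨fun k => (z k)⁻¹, ?_, ?_⟩
    · exact tendsto_inv₀_cobounded'.comp (tendsto_norm_atTop_iff_cobounded.1 h2)
    · filter_upwards [h2.eventually_gt_atTop R0] with k hk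
      rw [inv_inv]
      exact hR0 _ hk (h1 k)
  by_cases ho : 0 ≤ meromorphicOrderAt (fun w => S w⁻¹) 0
  · obtain ⟨L, hL⟩ := tendsto_nhds_of_meromorphicOrderAt_nonneg hS ho
    refine ⟨L, fun w φ hw h => ?_⟩
    obtain ⟨u, hu, hu2⟩ := key w φ hw h
    exact tendsto_nhds_unique (tendsto_const_nhds.congr' (hu2.mono fun k hk => hk.symm))
      (hL.comp hu)
  · refine ⟨0, fun w φ hw h => ?_⟩
    exfalso
    obtain ⟨u, hu, hu2⟩ := key w φ hw h
    have h1 := (tendsto_cobounded_of_meromorphicOrderAt_neg (not_le.1 ho)).comp hu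
    have h2 : Tendsto (fun k => ‖S (u k)⁻¹‖) atTop atTop := tendsto_norm_atTop_iff_cobounded.2 h1
    obtain ⟨k, hk1, hk2⟩ := (hu2.and (h2.eventually_gt_atTop ‖φ‖)).exists
    rw [hk1] at hk2
    exact lt_irrefl _ hk2

end per

section generic

variable {N : ℕ}

/-- monomials as units -/
noncomputable def mu (m : Fin N → ℤ) : (Lau N)ˣ where
  val := AddMonoidAlgebra.single m 1
  inv := AddMonoidAlgebra.single (-m) 1
  val_inv := by rw [AddMonoidAlgebra.single_mul_single, add_neg_cancel, mul_one]; rfl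
  inv_val := by rw [AddMonoidAlgebra.single_mul_single, neg_add_cancel, mul_one]; rfl

noncomputable def muH : Multiplicative (Fin N → ℤ) →* (Lau N)ˣ where
  toFun m := mu m.toAdd
  map_one' := by
    apply Units.ext
    rfl
  map_mul' m m' := by
    apply Units.ext
    show AddMonoidAlgebra.single (m.toAdd + m'.toAdd) (1 : ℂ) =
      AddMonoidAlgebra.single m.toAdd 1 * AddMonoidAlgebra.single m'.toAdd 1
    rw [AddMonoidAlgebra.single_mul_single, mul_one]

theorem mu_prod (m : Fin N → ℤ) : ∏ i, (mu (Pi.single i 1 : Fin N → ℤ)) ^ (m i) = mu m := by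
  have h1 : mu m = muH (Multiplicative.ofAdd m) := rfl
  have h2 : ∀ i, mu (Pi.single i 1 : Fin N → ℤ) = muH (Multiplicative.ofAdd (Pi.single i 1)) :=
    fun i => rfl
  simp_rw [h1, h2, ← map_zpow, ← map_prod]
  congr 1
  apply Multiplicative.toAdd.injective
  rw [toAdd_prod]
  simp_rw [toAdd_zpow, toAdd_ofAdd]
  funext j
  rw [Finset.sum_apply]
  simp [Pi.single_apply]

theorem exists_generic (I : Ideal (Lau N)) [hI : I.IsPrime] :
    ∃ (K : Type) (_ : Field K) (_ : Algebra ℂ K) (x : Fin N → Kˣ), ∀ g, ep x g = 0 ↔ g ∈ I := by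
  let K := FractionRing (Lau N ⧸ I)
  let φ : Lau N →ₐ[ℂ] K := (IsScalarTower.toAlgHom ℂ (Lau N ⧸ I) K).comp (Ideal.Quotient.mkₐ ℂ I)
  have hφ : ∀ g, φ g = 0 ↔ g ∈ I := by
    intro g
    show algebraMap (Lau N ⧸ I) K (Ideal.Quotient.mk I g) = 0 ↔ g ∈ I
    rw [← Ideal.Quotient.eq_zero_iff_mem,
      map_eq_zero_iff _ (IsFractionRing.injective (Lau N ⧸ I) K)]
  refine ⟨K, inferInstance, inferInstance, fun i =>
    Units.map (φ : Lau N →* K) (mu (Pi.single i 1)), fun g => ?_⟩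
  have h1 : ep (fun i => Units.map (φ : Lau N →* K) (mu (Pi.single i 1))) g = φ g := by
    induction g using AddMonoidAlgebra.induction_linear with
    | zero => rw [map_zero, map_zero]
    | add f g hf hg => rw [map_add, map_add, hf, hg]
    | single m a =>
      rw [ep_single]
      have h2 : xm (fun i => Units.map (φ : Lau N →* K) (mu (Pi.single i 1))) m =
          Units.map (φ : Lau N →* K) (mu m) := by
        unfold xm
        rw [← mu_prod, map_prod]
        exact Finset.prod_congr rfl fun i _ => (map_zpow _ _ _).symm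
      rw [h2]
      show a • φ (AddMonoidAlgebra.single m 1) = φ (AddMonoidAlgebra.single m a)
      rw [← map_smul]
      congr 1
      simp
  rw [h1]
  exact hφ g

end generic

section curve

variable {N : ℕ}

/-- hypotheses on the entire curve, except for the equations -/
structure HU {r : ℕ} (F : Fin r → Lau N) (e : Fin r → ℕ) (m : ℕ) (U : Fin (N + 1) → ℂ → ℂ) :
    Prop where
  diff : ∀ i, Differentiable ℂ (U i)
  ncz : ∀ z, ∃ i, U i z ≠ 0
  nz : ∀ i, ∃ z, U i z ≠ 0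
  ord : ∀ i z, ∃ a : ℕ, analyticOrderAt (U i) z = ((m * a : ℕ) : ℕ∞)
  root : ∀ j, (∀ z, (∀ i, U i z ≠ 0) → lev (F j) (tor fun i => U i z) = 0) ∨
    ∀ z, ∃ a : ℤ, meromorphicOrderAt (fun z => lev (F j) (tor fun i => U i z)) z
      = ((md m (e j) * a : ℤ) : WithTop ℤ)
  nonc : ∃ z z' i, U i z * U 0 z' ≠ U i z' * U 0 z

/-- the equations of `I` hold along the curve -/
def Van (I : Ideal (Lau N)) (U : Fin (N + 1) → ℂ → ℂ) : Prop :=
  ∀ g ∈ I, ∀ z, (∀ i, U i z ≠ 0) → lev g (tor fun i => U i z) = 0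

variable {U : Fin (N + 1) → ℂ → ℂ}

theorem tor_ne {v : Fin (N + 1) → ℂ} (hv : ∀ i, v i ≠ 0) (i : Fin N) : tor v i ≠ 0 :=
  div_ne_zero (hv _) (hv _)

theorem good_dense (hd : ∀ i, Differentiable ℂ (U i)) (hn : ∀ i, ∃ z, U i z ≠ 0) {f : ℂ → ℂ}
    (hf : Differentiable ℂ f) (hf0 : ∃ z, f z ≠ 0) :
    Dense {z | z ≠ 0 ∧ (∀ i, U i z ≠ 0) ∧ f z ≠ 0} := by
  have h1 : (({0} : Set ℂ) ∪ ((⋃ i, {z | U i z = 0}) ∪ {z | f z = 0})).Countable :=
    (countable_singleton 0).union ((countable_iUnion fun i => zeros_countable (hd i) (hn i)).union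
      (zeros_countable hf hf0))
  refine (h1.dense_compl ℝ).mono ?_
  intro z hz
  rw [mem_compl_iff, mem_union, mem_union, mem_iUnion] at hz
  push Not at hz
  exact ⟨hz.1, hz.2.1, hz.2.2⟩

theorem form (hd : ∀ i, Differentiable ℂ (U i)) (g : Lau N) :
    ∃ f : ℂ → ℂ, Differentiable ℂ f ∧ ∀ z, (∀ i, U i z ≠ 0) →
      (f z = 0 ↔ lev g (tor fun i => U i z) = 0) := by
  obtain ⟨k, hk⟩ := hform g
  obtain ⟨P, -, hP⟩ := hk k k le_rfl le_rfl
  refine ⟨_, diff_eval P hd, fun z hz => ?_⟩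
  rw [hP _ hz, mul_eq_zero]
  have h1 : U 0 z ^ k * ∏ i : Fin N, U i.succ z ^ k ≠ 0 :=
    mul_ne_zero (pow_ne_zero _ (hz 0)) (Finset.prod_ne_zero_iff.2 fun i _ => pow_ne_zero _ (hz _))
  constructor
  · rintro (h | h)
    · exact absurd h h1
    · exact h
  · exact Or.inr

theorem van_mul (hd : ∀ i, Differentiable ℂ (U i)) (hn : ∀ i, ∃ z, U i z ≠ 0) {a b : Lau N}
    (h : ∀ z, (∀ i, U i z ≠ 0) → lev (a * b) (tor fun i => U i z) = 0) :
    (∀ z, (∀ i, U i z ≠ 0) → lev a (tor fun i => U i z) = 0) ∨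
      ∀ z, (∀ i, U i z ≠ 0) → lev b (tor fun i => U i z) = 0 := by
  by_contra hcon
  push Not at hcon
  obtain ⟨⟨z1, hz1, h1⟩, ⟨z2, hz2, h2⟩⟩ := hcon
  obtain ⟨fa, hfa, hfa2⟩ := form hd a
  obtain ⟨fb, hfb, hfb2⟩ := form hd b
  have ha0 : ∃ z, fa z ≠ 0 := ⟨z1, fun h0 => h1 ((hfa2 z1 hz1).1 h0)⟩
  have hb0 : ∃ z, fb z ≠ 0 := ⟨z2, fun h0 => h2 ((hfb2 z2 hz2).1 h0)⟩
  have hA := good_dense hd hn hfa ha0
  have hcb : ({z | fb z = 0}).Countable := zeros_countable hfb hb0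
  have h3 : (({0} : Set ℂ) ∪ ((⋃ i, {z | U i z = 0}) ∪ ({z | fa z = 0} ∪ {z | fb z = 0}))).Countable :=
    (countable_singleton 0).union ((countable_iUnion fun i => zeros_countable (hd i) (hn i)).union
      ((zeros_countable hfa ha0).union hcb))
  obtain ⟨z, hz⟩ := (h3.dense_compl ℝ).nonempty
  rw [mem_compl_iff, mem_union, mem_union, mem_union, mem_iUnion] at hz
  push Not at hz
  obtain ⟨-, hz1, hz2, hz3⟩ := hz
  have h4 := h z hz1
  rw [lev_mul _ _ (tor_ne hz1), mul_eq_zero] at h4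
  rcases h4 with h4 | h4
  · exact hz2 ((hfa2 z hz1).2 h4)
  · exact hz3 ((hfb2 z hz1).2 h4)

theorem van_sup {I : Ideal (Lau N)} (hV : Van I U) {a : Lau N}
    (ha : ∀ z, (∀ i, U i z ≠ 0) → lev a (tor fun i => U i z) = 0) :
    Van (I ⊔ Ideal.span {a}) U := by
  intro g hg z hz
  obtain ⟨g1, hg1, g2, hg2, rfl⟩ := Submodule.mem_sup.1 hg
  obtain ⟨c, rfl⟩ := Ideal.mem_span_singleton'.1 hg2
  rw [lev_add, lev_mul _ _ (tor_ne hz), hV g1 hg1 z hz, ha z hz, mul_zero, add_zero]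

/-- the composition with the exponential function -/
noncomputable def ecurve (U : Fin (N + 1) → ℂ → ℂ) (hd : ∀ i, Differentiable ℂ (U i))
    (hz : ∀ z, ∃ i, U i z ≠ 0) (hn : ∀ i, ∃ z, U i z ≠ 0) : Curve N where
  r0 := 1
  X i z := U i (Complex.exp z)
  hr0 := le_rfl
  an i z _ := ((hd i).comp Complex.differentiable_exp).analyticAt z
  ncz z _ := hz _
  nz i := by
    obtain ⟨w, hw⟩ := (good_dense hd hn (hd i) (hn i)).nonempty
    obtain ⟨z, hz1, rfl⟩ := exists_log hw.1 1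
    exact ⟨z, hz1, hw.2.2⟩

variable {hd : ∀ i, Differentiable ℂ (U i)} {hz : ∀ z, ∃ i, U i z ≠ 0}
  {hn : ∀ i, ∃ z, U i z ≠ 0}

theorem ecurve_mem {z : ℂ} (h1 : 1 < ‖z‖) (h2 : ∀ i, U i (Complex.exp z) ≠ 0) :
    z ∈ (ecurve U hd hz hn).U := ⟨h1, h2⟩

theorem ecurve_val (g : Lau N) {z : ℂ} (h : z ∈ (ecurve U hd hz hn).U) :
    (ecurve U hd hz hn).val ((ecurve U hd hz hn).ev g) z =
      lev g (tor fun i => U i (Complex.exp z)) := val_ev _ g h

theorem val_zero' (c : Curve N) (z : ℂ) : c.val 0 z = 0 := by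
  have := c.val_smul 0 (0 : c.Mr) z
  rw [zero_smul, zero_mul] at this
  exact this

theorem ecurve_adm {r m : ℕ} {F F' : Fin r → Lau N} {e : Fin r → ℕ} (hU : HU F e m U)
    (hF' : ∀ j, F' j = F j ∨ F' j = 1) : AdmG F' e m (ecurve U hd hz hn) := by
  have hexp : ∀ z : ℂ, deriv Complex.exp z ≠ 0 := fun z => by
    rw [Complex.deriv_exp]
    exact Complex.exp_ne_zero z
  refine ⟨fun i z _ => ?_, fun j hne z hzE => ?_⟩
  · obtain ⟨a, ha⟩ := hU.ord i (Complex.exp z)
    have h1 : analyticOrderAt ((ecurve U hd hz hn).X i) z = ((m * a : ℕ) : ℕ∞) := by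
      rw [← ha]
      exact analyticOrderAt_comp_of_deriv_ne_zero (Complex.differentiable_exp.analyticAt z)
        (hexp z)
    show (m : ℤ) ∣ ((analyticOrderAt ((ecurve U hd hz hn).X i) z).toNat : ℤ)
    rw [h1, ENat.toNat_natCast]
    push_cast
    exact Dvd.intro _ rfl
  · rcases hF' j with h | h
    · rw [h] at hne ⊢
      rcases hU.root j with h1 | h1
      · exfalso
        apply hne
        apply (ecurve U hd hz hn).val_inj
        intro w hw
        rw [ecurve_val _ hw, val_zero']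
        exact h1 _ hw.2
      · obtain ⟨a, ha⟩ := h1 (Complex.exp z)
        refine ⟨a, ?_⟩
        rw [← ha]
        have h2 : (ecurve U hd hz hn).val ((ecurve U hd hz hn).ev (F j)) =ᶠ[𝓝[≠] z]
            (fun w => lev (F j) (tor fun i => U i w)) ∘ Complex.exp := by
          filter_upwards [(ecurve U hd hz hn).U_punct hzE] with w hw
          exact ecurve_val _ hw
        unfold Curve.ord
        rw [meromorphicOrderAt_congr h2]
        exact meromorphicOrderAt_comp_of_deriv_ne_zero (Complex.differentiable_exp.analyticAt z)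
          (hexp z)
    · rw [h, map_one]
      refine ⟨0, ?_⟩
      rw [mul_zero]
      have h2 : (ecurve U hd hz hn).val 1 =ᶠ[𝓝[≠] z] fun _ => (1 : ℂ) := by
        filter_upwards [(ecurve U hd hz hn).U_punct hzE] with w hw
        exact (ecurve U hd hz hn).val_one hw
      unfold Curve.ord
      rw [meromorphicOrderAt_congr h2]
      exact (tendsto_ne_zero_iff_meromorphicOrderAt_eq_zero (MeromorphicAt.const 1 z)).1
        ⟨1, one_ne_zero, tendsto_const_nhds⟩

/-- characters which are meromorphic at infinity are constant -/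
theorem char_const {γ : Fin N → ℤ} (h : MInf (ecurve U hd hz hn) γ) :
    ∃ L : ℂ, ∀ w, w ≠ 0 → (∀ i, U i w ≠ 0) → ∏ i, (tor fun i => U i w) i ^ γ i = L := by
  obtain ⟨S, hS, R0, hR0⟩ := h
  obtain ⟨L, hL⟩ := const_of_per hS
  refine ⟨L, fun w hw hw2 => hL w _ hw ⟨max R0 1, fun z hz1 hz2 => ?_⟩⟩
  have h1 : z ∈ (ecurve U hd hz hn).U :=
    ecurve_mem ((le_max_right _ _).trans_lt hz1) (by rw [hz2]; exact hw2)
  rw [← hR0 z h1 ((le_max_left _ _).trans_lt hz1)]
  show ∏ i, (U i.succ (Complex.exp z) / U 0 (Complex.exp z)) ^ γ i = _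
  rw [hz2]
  rfl

theorem not_all {r m : ℕ} {F : Fin r → Lau N} {e : Fin r → ℕ} (hU : HU F e m U)
    (h : ∀ γ, MInf (ecurve U hd hz hn) γ) : False := by
  obtain ⟨z, z', i, hne⟩ := hU.nonc
  apply hne
  refine Fin.cases ?_ (fun i => ?_) i
  · ring
  · obtain ⟨L, hL⟩ := char_const (h (Pi.single i 1))
    have h1 : ∀ w, U i.succ w = L * U 0 w := by
      have h2 : Dense {z | z ≠ 0 ∧ (∀ i, U i z ≠ 0) ∧ U 0 z ≠ 0} :=
        good_dense hU.diff hU.nz (hU.diff 0) (hU.nz 0)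
      have h3 : EqOn (U i.succ) (fun w => L * U 0 w) {z | z ≠ 0 ∧ (∀ i, U i z ≠ 0) ∧ U 0 z ≠ 0} := by
        rintro w ⟨hw1, hw2, hw3⟩
        have h4 := hL w hw1 hw2
        rw [Finset.prod_eq_single i] at h4
        · rw [Pi.single_eq_same, zpow_one] at h4
          have h5 : U i.succ w / U 0 w = L := h4
          rw [div_eq_iff hw3] at h5
          exact h5
        · intro j _ hj
          rw [Pi.single_eq_of_ne hj, zpow_zero]
        · intro h'
          exact absurd (Finset.mem_univ _) h'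
      exact fun w => congrFun (Continuous.ext_on h2 (hU.diff _).continuous
        (continuous_const.mul (hU.diff 0).continuous) h3) w
    rw [h1, h1]
    ring

end curve

theorem orb_mono {N r : ℕ} {I J : Ideal (Lau N)} (hIJ : I ≤ J) {F : Fin r → Lau N}
    {e : Fin r → ℕ} {x0 : Fin N → ℂ} (h : OrbPt J F e x0) : OrbPt I F e x0 := by
  obtain ⟨l, hl, h1, h2⟩ := h
  exact ⟨l, hl, fun g hg => h1 g (hIJ hg), h2⟩

/-- the statement for an ideal -/
def PI {N r : ℕ} (F : Fin r → Lau N) (e : Fin r → ℕ) (I : Ideal (Lau N)) : Prop :=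
  ∃ m0 : ℕ, ∀ m, m0 ≤ m → (∀ j, e j ≠ 0 → e j ∣ m) → ∀ U : Fin (N + 1) → ℂ → ℂ, HU F e m U →
    Van I U → {z | (∀ i, U i z ≠ 0) ∧ ¬ OrbPt I F e (tor fun i => U i z)}.Countable

theorem prime_case (hP : St_prime) {N r : ℕ} (F : Fin r → Lau N) (e : Fin r → ℕ)
    (I : Ideal (Lau N)) (hI : I.IsPrime) (ih : ∀ J, I < J → PI F e J) : PI F e I := by
  classical
  obtain ⟨K, i1, i2, x, hx⟩ := exists_generic I
  let F' : Fin r → Lau N := fun j => if F j ∈ I then 1 else F j
  have hF' : ∀ j, ep x (F' j) ≠ 0 := by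
    intro j
    show ep x (if F j ∈ I then 1 else F j) ≠ 0
    split_ifs with h
    · rw [map_one]
      exact one_ne_zero
    · exact fun h0 => h ((hx _).1 h0)
  obtain ⟨Γ, A, D, S, a, m1, G, hSat, hG, hhom, hj, hcur⟩ := hP N r K x F' e hF'
  have hGI : G ∉ I := fun h => hG ((hx G).2 h)
  have hlt : I < I ⊔ Ideal.span {G} := by
    refine lt_of_le_of_ne le_sup_left fun h => hGI ?_
    rw [h]
    exact Ideal.mem_sup_right (Ideal.mem_span_singleton_self G)
  obtain ⟨m2, h2⟩ := ih _ hlt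
  refine ⟨max m1 m2, fun m hm hdiv U hU hV => ?_⟩
  by_cases hVG : ∀ z, (∀ i, U i z ≠ 0) → lev G (tor fun i => U i z) = 0
  · refine (h2 m ((le_max_right _ _).trans hm) hdiv U hU (van_sup hV hVG)).mono ?_
    rintro z ⟨hz1, hz2⟩
    exact ⟨hz1, fun h => hz2 (orb_mono le_sup_left h)⟩
  push Not at hVG
  obtain ⟨z1, hz1, hz1G⟩ := hVG
  obtain ⟨f, hf, hf2⟩ := form hU.diff G
  have hf0 : ∃ z, f z ≠ 0 := ⟨z1, fun h0 => hz1G ((hf2 z1 hz1).1 h0)⟩
  -- the curve
  have hM := hcur m ((le_max_left _ _).trans hm) hdiv (ecurve U hU.diff hU.ncz hU.nz)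
    (ecurve_adm hU fun j => by
      show (if F j ∈ I then 1 else F j) = F j ∨ (if F j ∈ I then 1 else F j) = 1
      split_ifs
      · exact Or.inr rfl
      · exact Or.inl rfl)
    (fun g hg => by
      apply (ecurve U hU.diff hU.ncz hU.nz).val_inj
      intro w hw
      rw [ecurve_val _ hw, val_zero']
      exact hV g ((hx g).1 hg) _ hw.2)
    (fun h0 => by
      obtain ⟨w, hw1, hw2, hw3⟩ := (good_dense hU.diff hU.nz hf hf0).nonempty
      obtain ⟨z, hz2, rfl⟩ := exists_log hw1 1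
      apply hw3
      rw [hf2 _ hw2, ← ecurve_val (hd := hU.diff) (hz := hU.ncz) (hn := hU.nz) G
        (ecurve_mem hz2 hw2), h0, val_zero'])
  have htop : Γ ≠ ⊤ := by
    rintro rfl
    exact not_all hU fun γ => hM γ Submodule.mem_top
  obtain ⟨l, hl0, hl⟩ := exists_func hSat htop
  have hcount : (({0} : Set ℂ) ∪ {z | f z = 0}).Countable :=
    (countable_singleton 0).union (zeros_countable hf hf0)
  refine hcount.mono ?_
  rintro z ⟨hzU, hzO⟩
  by_contra hcon
  rw [mem_union] at hcon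
  push Not at hcon
  apply hzO
  have hGz : lev G (tor fun i => U i z) ≠ 0 := fun h0 => hcon.2 ((hf2 z hzU).2 h0)
  set x0 : Fin N → ℂ := tor fun i => U i z with hx0
  have hx0ne : ∀ i, x0 i ≠ 0 := fun i => tor_ne hzU i
  have hvan : ∀ g ∈ I, ∀ s : ℂ, s ≠ 0 → lev g (fun i => s ^ l i * x0 i) = 0 := by
    intro g hg s hs
    refine lev_orbit hl hx0ne g (fun q => ?_) hs
    exact hV _ ((hx _).1 (hhom g ((hx g).2 hg) q)) z hzU
  refine ⟨l, hl0, hvan, fun j => ?_⟩
  by_cases hFj : F j ∈ I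
  · exact Or.inl (hvan _ hFj)
  · right
    obtain ⟨b1, b2, b3, b4, b5, b6⟩ := hj j
    have hF'j : F' j = F j := if_neg hFj
    rw [hF'j] at b6
    have hdvd : ∀ T : Lau N, T ∣ G → lev T x0 ≠ 0 := by
      rintro T ⟨T', rfl⟩ h0
      rw [lev_mul _ _ hx0ne, h0, zero_mul] at hGz
      exact hGz rfl
    refine orbit_rel hl hx0ne b1 b2 (hdvd _ b3) (hdvd _ b4) (hdvd _ b5) (a := a j) fun s hs => ?_
    have hy : ∀ i, s ^ l i * x0 i ≠ 0 := fun i => mul_ne_zero (zpow_ne_zero _ hs) (hx0ne i)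
    have h3 : D j * F j - A j * AddMonoidAlgebra.single (a j) 1 * S j ^ e j ∈ I := by
      rw [← hx, map_sub, b6, sub_self]
    have h4 := hvan _ h3 s hs
    rw [sub_eq_add_neg, ← neg_one_mul, lev_add, lev_mul (-1) _ hy] at h4
    have h5 : lev (-1 : Lau N) (fun i => s ^ l i * x0 i) = -1 := by
      have h6 : lev ((-1 : Lau N) + 1) (fun i => s ^ l i * x0 i) = 0 := by
        rw [neg_add_cancel, lev_zero]
      rw [lev_add, lev_one hy] at h6
      linear_combination h6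
    rw [h5] at h4
    linear_combination h4

theorem all_cases (hP : St_prime) {N r : ℕ} (F : Fin r → Lau N) (e : Fin r → ℕ)
    (I : Ideal (Lau N)) : PI F e I := by
  induction I using (wellFounded_gt (α := Ideal (Lau N))).induction with
  | _ I ih =>
  by_cases htop : I = ⊤
  · refine ⟨0, fun m _ _ U hU hV => ?_⟩
    exfalso
    obtain ⟨w, hw1, hw2, hw3⟩ := (good_dense hU.diff hU.nz (hU.diff 0) (hU.nz 0)).nonempty
    have h1 := hV 1 (by rw [htop]; exact Submodule.mem_top) w hw2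
    rw [lev_one (tor_ne hw2)] at h1
    exact one_ne_zero h1
  by_cases hI : I.IsPrime
  · exact prime_case hP F e I hI fun J hJ => ih J hJ
  · rw [Ideal.not_isPrime_iff] at hI
    rcases hI with hI | ⟨a, ha, b, hb, hab⟩
    · exact absurd hI htop
    have hlt : ∀ c, c ∉ I → I < I ⊔ Ideal.span {c} := by
      intro c hc
      refine lt_of_le_of_ne le_sup_left fun h => hc ?_
      rw [h]
      exact Ideal.mem_sup_right (Ideal.mem_span_singleton_self c)
    obtain ⟨m1, h1⟩ := ih _ (hlt a ha)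
    obtain ⟨m2, h2⟩ := ih _ (hlt b hb)
    refine ⟨max m1 m2, fun m hm hdiv U hU hV => ?_⟩
    rcases van_mul hU.diff hU.nz (hV _ hab) with h | h
    · refine (h1 m ((le_max_left _ _).trans hm) hdiv U hU (van_sup hV h)).mono ?_
      rintro z ⟨hz1, hz2⟩
      exact ⟨hz1, fun h => hz2 (orb_mono le_sup_left h)⟩
    · refine (h2 m ((le_max_right _ _).trans hm) hdiv U hU (van_sup hV h)).mono ?_
      rintro z ⟨hz1, hz2⟩
      exact ⟨hz1, fun h => hz2 (orb_mono le_sup_left h)⟩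

/-- Entire curves in closed subsets of tori. -/
theorem t_core (hP : St_prime) : St_core := by
  intro N r I F e
  obtain ⟨m0, h⟩ := all_cases hP F e I
  exact ⟨m0, fun m hm hdiv U h1 h2 h3 h4 h5 h6 h7 => h m hm hdiv U ⟨h1, h2, h3, h4, h6, h7⟩ h5⟩

end Pool.Agent.Y220.KG
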